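import Pool.Agent.helper70.BND.SpecH

/-!
# Project bnd (MP_376aaf_an), block H, row bh:WDC: the words `wd`
-/

set_option autoImplicit false

open scoped Topology
open Finset

namespace Pool.Agent.BND.EX

theorem WDC_succ (n : ℕ) (x : ℕ → ℕ) : wd (n + 1) x = wd n x ++ List.replicate (x n) n := by
  unfold wd
  rw [List.range_succ, List.flatMap_append]
  simp

theorem WDC : WDC_stmt := by
  intro n x
  refine ⟨?_, ?_, ?_⟩
  · intro v
    induction n with
    | zero => simp [wd]
    | succ n ih =>
      rw [WDC_succ, List.count_append, ih, List.count_replicate]
      by_cases h1 : v < n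
      · have h3 : ¬ n = v := by omega
        have h4 : v < n + 1 := by omega
        simp [h1, h3, h4]
      · by_cases h2 : n = v
        · subst h2
          simp
        · have h4 : ¬ v < n + 1 := by omega
          simp [h1, h2, h4]
  · intro v hv
    unfold wd at hv
    rw [List.mem_flatMap] at hv
    obtain ⟨a, ha, h⟩ := hv
    rw [List.mem_range] at ha
    rw [List.eq_of_mem_replicate h]
    exact ha
  · intro Z _ z
    induction n with
    | zero => simp [wd]
    | succ n ih =>
      rw [WDC_succ, List.map_append, List.sum_append, ih, Finset.sum_range_succ, List.map_replicate, List.sum_replicate]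

end Pool.Agent.BND.EX
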